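import Pool.Agent.D0H61.CP.Stm
import Pool.Agent.D0H65.CC.One

/-!
Module ONE2 (for helper61).
-/

set_option autoImplicit false

open Filter Topology MeasureTheory Finset

namespace Pool.Agent.D0H65.CP

open Pool.Agent.D0H61.CC Pool.Agent.D0H61.CP Pool.Agent.D0H65.CC

/-- The set of ONE2. -/
def twoS (h : ℕ) (κ γ : ℝ) (a b : ℤ) (α : ℝ) : Set ℕ :=
  {q : ℕ | q.Prime ∧ PP (⌊α * (q : ℝ) ^ h⌋ + a) ∧ PP (⌊γ * α ^ κ * (q : ℝ) ^ h⌋ + b)}

theorem PP_m1 (a : ℤ) (t : ℝ) : MeasurableSet {α : ℝ | PP (⌊α * t⌋ + a)} := by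
  have h2 : Measurable fun α : ℝ => ⌊α * t⌋ := (measurable_id.mul_const _).floor
  exact h2 (MeasurableSet.of_discrete (s := {z : ℤ | PP (z + a)}))

theorem PP_m2 (κ γ : ℝ) (b : ℤ) (t : ℝ) : MeasurableSet {α : ℝ | PP (⌊γ * α ^ κ * t⌋ + b)} := by
  have h1 : Measurable fun α : ℝ => α ^ κ := measurable_id.pow_const κ
  have h2 : Measurable fun α : ℝ => ⌊γ * α ^ κ * t⌋ := ((h1.const_mul γ).mul_const _).floor
  exact h2 (MeasurableSet.of_discrete (s := {z : ℤ | PP (z + b)}))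

theorem twoS_meas (h : ℕ) (κ γ : ℝ) (a b : ℤ) (q : ℕ) :
    MeasurableSet {α : ℝ | q ∈ twoS h κ γ a b α} := by
  have e : {α : ℝ | q ∈ twoS h κ γ a b α} = {_α : ℝ | q.Prime} ∩
      ({α : ℝ | PP (⌊α * (q : ℝ) ^ h⌋ + a)} ∩ {α : ℝ | PP (⌊γ * α ^ κ * (q : ℝ) ^ h⌋ + b)}) := rfl
  rw [e]
  exact (MeasurableSet.const _).inter ((PP_m1 a _).inter (PP_m2 κ γ b _))

/-- The elements of the window of primes. -/
theorem mem_pw {h : ℕ} {η : ℝ} {M q : ℕ} (hq : q ∈ pw h η M) :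
    1 ≤ q ∧ q.Prime ∧ M < q ∧ (q : ℝ) ≤ (1 + η) ^ (1 / h : ℝ) * M := by
  classical
  unfold pw prs at hq
  rw [Finset.mem_filter, Finset.mem_Icc] at hq
  obtain ⟨⟨h1, h2⟩, h3, h4⟩ := hq
  refine ⟨h1, h3, by exact_mod_cast h4, ?_⟩
  by_contra hc
  push Not at hc
  have h5 : ⌊(1 + η) ^ (1 / h : ℝ) * (M : ℝ)⌋₊ < q := by
    rcases le_or_gt 0 ((1 + η) ^ (1 / h : ℝ) * (M : ℝ)) with h6 | h6
    · exact (Nat.floor_lt h6).2 hc
    · rw [Nat.floor_of_nonpos h6.le]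
      omega
  omega

/-- The upper end of the window. -/
theorem root_le_two {h : ℕ} (hh : 1 ≤ h) {η : ℝ} (hη : 0 < η) (hη1 : η ≤ 1) :
    (1 + η) ^ (1 / h : ℝ) ≤ 2 := by
  have hh' : (1 : ℝ) ≤ h := by exact_mod_cast hh
  have h1 : (1 / h : ℝ) ≤ 1 := by
    rw [div_le_one (by linarith)]
    exact hh'
  calc (1 + η) ^ (1 / h : ℝ) ≤ (1 + η) ^ (1 : ℝ) :=
        Real.rpow_le_rpow_of_exponent_le (by linarith) h1
    _ = 1 + η := Real.rpow_one _
    _ ≤ 2 := by linarith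

/-- From all large `N` to all large `M`. -/
theorem ev_pow' {h : ℕ} (hh : 1 ≤ h) {P : ℕ → Prop} (hP : ∀ᶠ N : ℕ in atTop, P N) :
    ∀ᶠ M : ℕ in atTop, P (M ^ h) := by
  have ht : Tendsto (fun M : ℕ => M ^ h) atTop atTop :=
    tendsto_atTop_mono (fun M => by
      simp only [id]
      exact Nat.le_self_pow (by omega) M) tendsto_id
  exact ht.eventually hP

theorem Mc_le (h : ℕ) (hh : 1 ≤ h) (η : ℝ) (hη : 0 < η) (hη1 : η ≤ 1) (κ γ : ℝ) (a b : ℤ) (M : ℕ) (α : ℝ) :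
    Mc κ γ a b ((pw h η M).image (· ^ h)) α ≤ (upTo (twoS h κ γ a b α) (2 * M)).card := by
  classical
  unfold Mc
  rw [← Finset.card_image_of_injective (upTo (twoS h κ γ a b α) (2 * M))
    (Nat.pow_left_injective (show h ≠ 0 by omega))]
  refine Finset.card_le_card ?_
  intro n hn
  rw [Finset.mem_filter, Finset.mem_image] at hn
  obtain ⟨⟨q, hq, rfl⟩, h2, h3⟩ := hn
  obtain ⟨h4, h5, h6, h7⟩ := mem_pw hq
  rw [Finset.mem_image]
  refine ⟨q, ?_, rfl⟩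
  unfold upTo
  rw [Finset.mem_filter, Finset.mem_Icc]
  refine ⟨⟨h4, ?_⟩, h5, ?_, ?_⟩
  · have h8 := root_le_two hh hη hη1
    have h9 : (q : ℝ) ≤ 2 * M := h7.trans (mul_le_mul_of_nonneg_right h8 (Nat.cast_nonneg _))
    exact_mod_cast h9
  · push_cast at h2
    exact h2
  · push_cast at h3
    exact h3

/-- Module ONE2. -/
theorem t_ONE2 : S_PW → S_CORE2 → S_DEN → S_ONE2 := by
  intro hPW hCore hDen h hh κ γ a b hκ0 hκ1 hγ
  refine hDen {α | Big 6 (twoS h κ γ a b α)} (big_meas 6 _ (twoS_meas h κ γ a b)) ?_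
  intro R hR
  obtain ⟨c, hc, η₀, hη₀, hη₀1, hcore⟩ := hCore h hh κ γ a b R hκ0 hκ1 hγ hR
  refine ⟨c, hc, η₀, hη₀, ?_⟩
  intro α₀ η hα1 hα2 hη hηη
  have hη1 : η ≤ 1 := hηη.trans hη₀1
  have hev := ev_pow' hh (hcore α₀ η hα1 hα2 hη hηη)
  obtain ⟨-, hcard, hbig, -⟩ := hPW h hh η hη hη1
  set I : Set ℝ := Set.Icc α₀ (α₀ * (1 + 3 * η)) with hIdef
  let GM : ℕ → Finset ℕ := fun M => (pw h η M).image (· ^ h)
  let T : ℕ → Set ℝ := fun M => {α : ℝ | α ∈ I ∧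
    ((GM M).card : ℝ) ≤ Mc κ γ a b (GM M) α * Real.log ((M ^ h : ℕ) : ℝ) ^ 3}
  have hTm : ∀ M, MeasurableSet (T M) := by
    intro M
    have e : T M = I ∩ {α : ℝ | ((GM M).card : ℝ) ≤
      Mc κ γ a b (GM M) α * Real.log ((M ^ h : ℕ) : ℝ) ^ 3} := rfl
    rw [e]
    exact measurableSet_Icc.inter
      (measurableSet_le measurable_const ((Mc_meas κ γ a b _).mul_const _))
  have hfreq : ∃ᶠ M in atTop, ENNReal.ofReal (c * η) ≤ volume (T M) := by
    apply Filter.Eventually.frequently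
    filter_upwards [hev] with M hM
    exact hM (GM M) ⟨M, rfl, rfl⟩
  have hlim := limsup_meas T hTm I (by rw [hIdef, Real.volume_Icc]; exact ENNReal.ofReal_ne_top)
    (fun N α h => h.1) _ hfreq
  refine hlim.trans (measure_mono ?_)
  intro α hα
  refine ⟨?_, ?_⟩
  · change Big 6 (twoS h κ γ a b α)
    unfold Big
    have htt : Tendsto (fun N : ℕ => 2 * N) atTop atTop :=
      tendsto_atTop_mono (fun N => by simp only [id]; omega) tendsto_id
    refine htt.frequently ?_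
    have hlogev : ∀ᶠ M : ℕ in atTop, (2 * (h : ℝ) ^ 3 + 1) ≤ Real.log M :=
      (Real.tendsto_log_atTop.comp tendsto_natCast_atTop_atTop).eventually_ge_atTop _
    refine (Frequently.and_eventually hα (hbig.and hlogev)).mono ?_
    rintro M ⟨⟨-, h2⟩, h3, h4⟩
    have hlog0 : 0 < Real.log M := by
      have : (0 : ℝ) ≤ 2 * (h : ℝ) ^ 3 := by positivity
      linarith
    have hM0 : (0 : ℝ) < M := by
      rcases Nat.eq_zero_or_pos M with h5 | h5
      · rw [h5] at hlog0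
        simp at hlog0
      · exact_mod_cast h5
    have hlog3 : Real.log M ≤ Real.log ((2 * M : ℕ) : ℝ) := by
      refine Real.log_le_log hM0 ?_
      push_cast
      linarith
    have hlogh : Real.log ((M ^ h : ℕ) : ℝ) = h * Real.log M := by
      push_cast
      rw [Real.log_pow]
    rw [hlogh] at h2
    have hMc : (Mc κ γ a b (GM M) α : ℝ) ≤ (upTo (twoS h κ γ a b α) (2 * M)).card := by
      exact_mod_cast Mc_le h hh η hη hη1 κ γ a b M α
    have hcardM : ((GM M).card : ℝ) = (pw h η M).card := by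
      exact_mod_cast hcard M
    rw [hcardM] at h2
    have h5 : (M : ℝ) ≤ (upTo (twoS h κ γ a b α) (2 * M)).card * ((h : ℝ) ^ 3 * Real.log M ^ 5) := by
      calc (M : ℝ) ≤ (pw h η M).card * Real.log M ^ 2 := h3
        _ ≤ (Mc κ γ a b (GM M) α * (h * Real.log M) ^ 3) * Real.log M ^ 2 :=
            mul_le_mul_of_nonneg_right h2 (by positivity)
        _ = Mc κ γ a b (GM M) α * ((h : ℝ) ^ 3 * Real.log M ^ 5) := by ring
        _ ≤ _ := mul_le_mul_of_nonneg_right hMc (by positivity)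
    have h6 : 2 * ((h : ℝ) ^ 3 * Real.log M ^ 5) ≤ Real.log ((2 * M : ℕ) : ℝ) ^ 6 := by
      calc 2 * ((h : ℝ) ^ 3 * Real.log M ^ 5) = (2 * (h : ℝ) ^ 3) * Real.log M ^ 5 := by ring
        _ ≤ Real.log M * Real.log M ^ 5 :=
            mul_le_mul_of_nonneg_right (by linarith) (by positivity)
        _ = Real.log M ^ 6 := by ring
        _ ≤ _ := pow_le_pow_left₀ hlog0.le hlog3 _
    calc ((2 * M : ℕ) : ℝ) = 2 * (M : ℝ) := by push_cast; ring
      _ ≤ 2 * ((upTo (twoS h κ γ a b α) (2 * M)).card * ((h : ℝ) ^ 3 * Real.log M ^ 5)) := by linarith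
      _ = (upTo (twoS h κ γ a b α) (2 * M)).card * (2 * ((h : ℝ) ^ 3 * Real.log M ^ 5)) := by ring
      _ ≤ (upTo (twoS h κ γ a b α) (2 * M)).card * Real.log ((2 * M : ℕ) : ℝ) ^ 6 :=
          mul_le_mul_of_nonneg_left h6 (by positivity)
  · obtain ⟨N, hN⟩ := Frequently.exists hα
    exact hN.1

end Pool.Agent.D0H65.CP
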