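import Pool.Agent.D0H61.CP.Stm
import Pool.Agent.D0H65.CC.Gen

/-!
Module GEN2 (for helper61).
-/

set_option autoImplicit false

open Filter Topology MeasureTheory Finset

namespace Pool.Agent.D0H65.CP

open Pool.Agent.D0H61.CC Pool.Agent.D0H61.CP Pool.Agent.D0H65.CC

/-- Module GEN2. -/
theorem t_GEN2 : S_ONE2 → S_GEN2 := by
  intro hOne h hh κ₁ κ₂ γ₁ γ₂ a b h1 h2 h12 hγ1 hγ2
  have hκ : κ₂ / κ₁ ≠ 0 := div_ne_zero h2 h1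
  have hκ1 : κ₂ / κ₁ ≠ 1 := by
    intro h
    rw [div_eq_one_iff_eq h1] at h
    exact h12 h.symm
  have hγ : 0 < γ₂ * γ₁ ^ (-(κ₂ / κ₁)) := by positivity
  have hae := hOne h hh (κ₂ / κ₁) _ a b hκ hκ1 hγ
  rw [ae_iff] at hae ⊢
  set Z : Set ℝ := {β : ℝ | ¬ (0 < β → Big 6 {q : ℕ | q.Prime ∧ PP (⌊β * (q : ℝ) ^ h⌋ + a) ∧
    PP (⌊γ₂ * γ₁ ^ (-(κ₂ / κ₁)) * β ^ (κ₂ / κ₁) * (q : ℝ) ^ h⌋ + b)})} with hZ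
  have hnull : volume (psi κ₁ γ₁ '' (Z ∩ Set.Ioi 0)) = 0 :=
    addHaar_image_eq_zero_of_differentiableOn_of_addHaar_eq_zero volume (psi_diff κ₁ γ₁ hγ1 Z)
      (measure_mono_null Set.inter_subset_left hae)
  refine measure_mono_null ?_ hnull
  intro α hα
  have hα' : 0 < α ∧ ¬ Big 6 {q : ℕ | q.Prime ∧ PP (⌊γ₁ * α ^ κ₁ * (q : ℝ) ^ h⌋ + a) ∧
      PP (⌊γ₂ * α ^ κ₂ * (q : ℝ) ^ h⌋ + b)} := by
    have : ¬ (0 < α → Big 6 {q : ℕ | q.Prime ∧ PP (⌊γ₁ * α ^ κ₁ * (q : ℝ) ^ h⌋ + a) ∧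
      PP (⌊γ₂ * α ^ κ₂ * (q : ℝ) ^ h⌋ + b)}) := hα
    exact Classical.not_imp.1 this
  obtain ⟨hα0, hα1⟩ := hα'
  have hβ : 0 < γ₁ * α ^ κ₁ := by positivity
  refine ⟨γ₁ * α ^ κ₁, ⟨?_, hβ⟩, ?_⟩
  · rw [hZ]
    change ¬ (0 < γ₁ * α ^ κ₁ → _)
    intro h
    apply hα1
    have h3 := h hβ
    have e : γ₂ * γ₁ ^ (-(κ₂ / κ₁)) * (γ₁ * α ^ κ₁) ^ (κ₂ / κ₁) = γ₂ * α ^ κ₂ := by
      rw [Real.mul_rpow hγ1.le (by positivity), ← Real.rpow_mul hα0.le]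
      have e1 : κ₁ * (κ₂ / κ₁) = κ₂ := by field_simp
      rw [e1, Real.rpow_neg hγ1.le]
      have : γ₁ ^ (κ₂ / κ₁) ≠ 0 := (Real.rpow_pos_of_pos hγ1 _).ne'
      field_simp
    rw [e] at h3
    exact h3
  · unfold psi
    have e2 : γ₁ * α ^ κ₁ / γ₁ = α ^ κ₁ := by field_simp
    rw [e2, ← Real.rpow_mul hα0.le]
    have e3 : κ₁ * (1 / κ₁) = 1 := by field_simp
    rw [e3, Real.rpow_one]

end Pool.Agent.D0H65.CP
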