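import Pool.Agent.D0H65.CP.One2

/-!
Module PW (for helper61).
-/

set_option autoImplicit false

open Filter Topology MeasureTheory Finset

namespace Pool.Agent.D0H65.CP

open Pool.Agent.D0H61.CC Pool.Agent.D0H61.CP Pool.Agent.D0H65.CC

/-- The number of primes in the window. -/
theorem pw_card (hZP : S_ZP) (h : ℕ) (hh : 1 ≤ h) (η : ℝ) (hη : 0 < η) (hη1 : η ≤ 1) :
    ∀ᶠ M : ℕ in atTop, (M : ℝ) ≤ (pw h η M).card * Real.log M ^ 2 := by
  classical
  obtain ⟨β, hβ⟩ : ∃ β : ℝ, β = (1 + η) ^ (1 / h : ℝ) - 1 := ⟨_, rfl⟩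
  have hh' : (0 : ℝ) < h := by exact_mod_cast hh
  have hβ0 : 0 < β := by
    rw [hβ, sub_pos]
    exact Real.one_lt_rpow (by linarith) (by positivity)
  have hβ1 : β ≤ 1 := by
    have := root_le_two hh hη hη1
    linarith
  have hlogev : ∀ᶠ M : ℕ in atTop, 4 / β + 1 ≤ Real.log M :=
    (Real.tendsto_log_atTop.comp tendsto_natCast_atTop_atTop).eventually_ge_atTop _
  filter_upwards [hZP 2 (by norm_num) 0 1, hlogev, eventually_ge_atTop 2] with M hM hlog hM2
  have hMr : (2 : ℝ) ≤ M := by exact_mod_cast hM2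
  obtain ⟨y, hy⟩ : ∃ y : ℝ, y = (1 + η) ^ (1 / h : ℝ) * M := ⟨_, rfl⟩
  have hyM : y = M + β * M := by rw [hy, hβ]; ring
  have h1 := hM M y 0 (by linarith) (by rw [hyM]; nlinarith) (by rw [hyM]; nlinarith) (by simp)
  have hex0 : ∀ x : ℝ, ex (0 * Real.log x) = 1 := by
    intro x
    unfold ex
    simp
  have h2 : (∑ p ∈ prs M y, ((Real.log p : ℝ) : ℂ) * ex (0 * Real.log p)) =
      ((∑ p ∈ prs M y, Real.log p : ℝ) : ℂ) := by
    push_cast
    refine Finset.sum_congr rfl fun p _ => ?_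
    rw [hex0, mul_one]
  have h3 : (∫ x in (M : ℝ)..y, ex (0 * Real.log x)) = ((y - M : ℝ) : ℂ) := by
    simp only [hex0]
    rw [intervalIntegral.integral_const]
    simp
  rw [h2, h3, ← Complex.ofReal_sub, Complex.norm_real, Real.norm_eq_abs, pow_one] at h1
  have hlog0 : 0 < Real.log M := by
    have : 0 < 4 / β := by positivity
    linarith
  have h4 := (abs_le.1 h1).1
  have h5 : ∑ p ∈ prs M y, Real.log p ≤ (prs M y).card * (2 * Real.log M) := by
    have h6 : ∀ p ∈ prs (M : ℝ) y, Real.log p ≤ 2 * Real.log M := by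
      intro p hp
      have hp' : p ∈ pw h η M := by
        unfold pw
        rw [← hy]
        exact hp
      obtain ⟨g1, -, -, g4⟩ := mem_pw hp'
      have g5 : (p : ℝ) ≤ (M : ℝ) ^ 2 := by
        have g6 := root_le_two hh hη hη1
        calc (p : ℝ) ≤ (1 + η) ^ (1 / h : ℝ) * M := g4
          _ ≤ 2 * M := mul_le_mul_of_nonneg_right g6 (by linarith)
          _ ≤ (M : ℝ) ^ 2 := by nlinarith
      calc Real.log p ≤ Real.log ((M : ℝ) ^ 2) :=
            Real.log_le_log (by exact_mod_cast g1) g5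
        _ = 2 * Real.log M := by rw [Real.log_pow]; norm_num
    have h7 := Finset.sum_le_card_nsmul (prs (M : ℝ) y) (fun p => Real.log p) (2 * Real.log M) h6
    rw [nsmul_eq_mul] at h7
    exact h7
  have hpw : pw h η M = prs M y := by
    unfold pw
    rw [hy]
  rw [hpw]
  have h8 : (M : ℝ) / Real.log M ≤ β / 4 * M := by
    rw [div_le_iff₀ hlog0]
    have h9 : 4 / β ≤ Real.log M := by linarith
    rw [div_le_iff₀ hβ0] at h9
    nlinarith
  have h10 : 3 * β / 4 * M ≤ (prs M y).card * (2 * Real.log M) := by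
    have : y - M = β * M := by rw [hyM]; ring
    linarith
  have h11 : 4 ≤ β * Real.log M := by
    have h9 : 4 / β ≤ Real.log M := by linarith
    rw [div_le_iff₀ hβ0] at h9
    linarith
  have h12 : (0 : ℝ) ≤ (prs M y).card := Nat.cast_nonneg _
  have h13 : 3 * β / 4 * M * (Real.log M / 2) ≤ (prs M y).card * (2 * Real.log M) * (Real.log M / 2) :=
    mul_le_mul_of_nonneg_right h10 (by positivity)
  have h14 : (prs M y).card * (2 * Real.log M) * (Real.log M / 2) = (prs M y).card * Real.log M ^ 2 := by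
    ring
  rw [h14] at h13
  refine le_trans ?_ h13
  have h15 : 3 * β / 4 * M * (Real.log M / 2) = 3 / 8 * (β * Real.log M) * M := by ring
  rw [h15]
  nlinarith

/-- Module PW. -/
theorem t_PW : S_ZP → S_PW := by
  intro hZP h hh η hη hη1
  classical
  have hcard := pw_card hZP h hh η hη hη1
  have himg : ∀ M : ℕ, ((pw h η M).image (· ^ h)).card = (pw h η M).card := fun M =>
    Finset.card_image_of_injective _ (Nat.pow_left_injective (show h ≠ 0 by omega))
  refine ⟨?_, himg, hcard, ?_⟩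
  · rintro N G ⟨M, rfl, rfl⟩ n hn
    rw [Finset.mem_image] at hn
    obtain ⟨q, hq, rfl⟩ := hn
    obtain ⟨h1, h2, h3, h4⟩ := mem_pw hq
    have hη0 : (0 : ℝ) ≤ 1 + η := by linarith
    refine ⟨Nat.pow_lt_pow_left h3 (by omega), ?_⟩
    push_cast
    calc (q : ℝ) ^ h ≤ ((1 + η) ^ (1 / h : ℝ) * M) ^ h :=
          pow_le_pow_left₀ (Nat.cast_nonneg _) h4 _
      _ = ((1 + η) ^ (1 / h : ℝ)) ^ h * (M : ℝ) ^ h := mul_pow _ _ _
      _ = (1 + η) * (M : ℝ) ^ h := by
          rw [← Real.rpow_natCast, ← Real.rpow_mul hη0]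
          have : (1 / h : ℝ) * (h : ℝ) = 1 := by
            have hh' : (h : ℝ) ≠ 0 := by
              have : (0 : ℝ) < h := by exact_mod_cast hh
              exact this.ne'
            field_simp
          rw [this, Real.rpow_one]
  · have hsq : ∀ᶠ M : ℕ in atTop, Real.log M ^ 2 ≤ √(M : ℝ) := by
      have h1 : Tendsto (fun x : ℝ => Real.log x ^ 2 / x ^ (1 / 2 : ℝ)) atTop (𝓝 0) := by
        have := isLittleO_log_rpow_rpow_atTop (2 : ℝ) (show (0 : ℝ) < 1 / 2 by norm_num)
        have h2 := this.tendsto_div_nhds_zero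
        refine h2.congr fun x => ?_
        norm_num
      have h2 := (h1.comp tendsto_natCast_atTop_atTop).eventually (gt_mem_nhds one_pos)
      filter_upwards [h2, eventually_ge_atTop 1] with M hM hM1
      have hM0 : (0 : ℝ) < M := by exact_mod_cast hM1
      have h3 : 0 < (M : ℝ) ^ (1 / 2 : ℝ) := Real.rpow_pos_of_pos hM0 _
      have h4 : Real.log M ^ 2 / (M : ℝ) ^ (1 / 2 : ℝ) < 1 := hM
      rw [div_lt_one h3] at h4
      rw [Real.sqrt_eq_rpow]
      exact h4.le
    have hall := hcard.and (hsq.and (eventually_ge_atTop 1))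
    filter_upwards [ev_pow hh hall] with N hN
    rintro G ⟨M, rfl, rfl⟩
    obtain ⟨h1, h2, h3⟩ := hN M rfl
    rw [himg M]
    have hM0 : (0 : ℝ) < M := by exact_mod_cast h3
    have hh' : (h : ℝ) ≠ 0 := by
      have : (0 : ℝ) < h := by exact_mod_cast hh
      exact this.ne'
    have e1 : ((M ^ h : ℕ) : ℝ) ^ (1 / (2 * h) : ℝ) = √(M : ℝ) := by
      push_cast
      rw [← Real.rpow_natCast, ← Real.rpow_mul hM0.le, Real.sqrt_eq_rpow]
      congr 1
      field_simp
    rw [e1]
    have h4 : 0 < √(M : ℝ) := Real.sqrt_pos.2 hM0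
    have h5 : (M : ℝ) ≤ (pw h η M).card * √(M : ℝ) :=
      h1.trans (mul_le_mul_of_nonneg_left h2 (Nat.cast_nonneg _))
    have h6 : √(M : ℝ) * √(M : ℝ) = M := Real.mul_self_sqrt hM0.le
    nlinarith

end Pool.Agent.D0H65.CP
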